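import Pool.Agent.N512.CC.E3
import Pool.Agent.N512.CC.Circ2
import Pool.Agent.N512.CC.Deg
import Pool.Agent.N512.CC.Miss
import Pool.Agent.N512.CC.Cone
import Pool.Agent.N512.CC.Comb

/-!
# A criterion for the Hilbert-Smith conjecture: equivariant maps of fibres to the circle

Let `X` be a Hausdorff space and `𝒜` a family of topological charts with values in `ℝⁿ`, `n ≥ 1`,
which is closed under compositions with bi-Lipschitz maps, such that the domains of the charts
cover a dense connected set (for example all charts, if `X` is an Alexandrov space of dimension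
`n`, or a connected `n`-manifold). Let a locally compact group `G` act faithfully and continuously
on `X`. Then `G` is a Lie group if there is a neighbourhood `V` of `1` such that the following holds
for all `g` whose powers have compact closure in `V`, with `g^(p^j) → 1` for a prime `p`, and for all
charts in `𝒜` in which the closure of the powers has displacement at most `1/4` on `B(0, 4)`: there is an invariant continuous map `F` with `|F - id| < 1/4`, equal to the identity at the
fixed points of `g`, such that for a dense set of `y` in the unit ball, either `y` is a fixed point, or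
there is a continuous map `Ψ` to the complex numbers without zeros, defined on the part of the fibre
`F⁻¹(y)` which lies in the closure of the set of the points of infinite orbit, with
`Ψ(gv) = exp(2πi/p) Ψ(v)`. The map `F` and the functions `Ψ` may depend on `g`, on the chart and on `y` in
an arbitrary way, and nothing is asked of the part of the fibre outside the closure of the infinite
orbits. (The condition is also necessary, since a Lie group has no small subgroups, so that only
`g = 1` and `F = id` occur; this is not part of the statement below.)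

This strengthens part (2) of the starting theorem `InvariantContinua` of this page, where the
condition is that the invariant continua of the whole fibre contain fixed points: if a compact fibre
contains no invariant continuum, it has an equivariant map to the `p`-th roots of unity.

Proof (files in `Pool/Agent/N512/CC/` and the starting library): the theorem `CircleFibres` of this page
shows that the functions `Ψ` do not exist unless `y` is fixed, so that `g` is trivial near the centres of
small charts; Newman's theorem and the structure theory of locally compact groups of the starting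
library (`Pool/Agent/R775/HS`) then apply.
-/

set_option autoImplicit false

namespace Pool.Agent.Results.MP_afaf30_gt.CircleCriterion

open Set Metric Filter Topology

/-- No positive power of `g` fixes `x`, that is, the orbit of `x` under the powers of `g` is
infinite. -/
def InfiniteOrbit {G X : Type} [Monoid G] [MulAction G X] (g : G) (x : X) : Prop :=
  ∀ m : ℕ, 0 < m → g ^ m • x ≠ x

/-- The closure of the powers of `g` is compact and contained in `V`. -/
def SmallPowers {G : Type} [Group G] [TopologicalSpace G] (V : Set G) (g : G) : Prop :=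
  IsCompact (closure (Subgroup.zpowers g : Set G)) ∧ closure (Subgroup.zpowers g : Set G) ⊆ V

/-- In the chart `φ` the closure of the powers of `g` has displacement at most `1 / 4` on the closed
ball of radius four. -/
def SmallInChart {n : ℕ} {G X : Type} [TopologicalSpace X] [Group G] [TopologicalSpace G]
    [MulAction G X] (φ : OpenPartialHomeomorph X (EuclideanSpace ℝ (Fin n))) (g : G) : Prop :=
  closedBall 0 4 ⊆ φ.target ∧
    ∀ h ∈ closure (Subgroup.zpowers g : Set G), ∀ v ∈ closedBall 0 4,
      h • φ.symm v ∈ φ.source ∧ dist (φ (h • φ.symm v)) v ≤ 1 / 4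

/-- `F` is continuous on the closed ball of radius four, moves its points by less than `1 / 4`, is
invariant under `g`, read in the chart `φ`, and is the identity at the fixed points. -/
def InvariantMap {n : ℕ} {G X : Type} [TopologicalSpace X] [Group G] [MulAction G X]
    (φ : OpenPartialHomeomorph X (EuclideanSpace ℝ (Fin n))) (g : G)
    (F : EuclideanSpace ℝ (Fin n) → EuclideanSpace ℝ (Fin n)) : Prop :=
  ContinuousOn F (closedBall 0 4) ∧ (∀ v ∈ closedBall 0 4, dist (F v) v < 1 / 4) ∧
    (∀ v ∈ closedBall 0 3, F (φ (g • φ.symm v)) = F v) ∧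
    ∀ v ∈ closedBall 0 3, g • φ.symm v = φ.symm v → F v = v

/-- The part of the fibre of `F` over `y` in the closure of the set of the points of infinite
orbit. -/
def InfiniteFibre {n : ℕ} {G X : Type} [TopologicalSpace X] [Group G] [MulAction G X]
    (φ : OpenPartialHomeomorph X (EuclideanSpace ℝ (Fin n))) (g : G)
    (F : EuclideanSpace ℝ (Fin n) → EuclideanSpace ℝ (Fin n)) (y : EuclideanSpace ℝ (Fin n)) :
    Set (EuclideanSpace ℝ (Fin n)) :=
  {v | v ∈ closedBall 0 3 ∧ F v = y ∧ φ.symm v ∈ closure {x : X | InfiniteOrbit g x}}

/-- There is a continuous complex function without zeros on the infinite part of the fibre which is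
multiplied by `exp (2πi / p)` under `g`. -/
def HasEigenfunction {n : ℕ} {G X : Type} [TopologicalSpace X] [Group G] [MulAction G X]
    (p : ℕ) (φ : OpenPartialHomeomorph X (EuclideanSpace ℝ (Fin n))) (g : G)
    (F : EuclideanSpace ℝ (Fin n) → EuclideanSpace ℝ (Fin n)) (y : EuclideanSpace ℝ (Fin n)) :
    Prop :=
  ∃ Ψ : EuclideanSpace ℝ (Fin n) → ℂ, ContinuousOn Ψ (InfiniteFibre φ g F y) ∧
    ∀ v ∈ InfiniteFibre φ g F y, Ψ v ≠ 0 ∧
      Ψ (φ (g • φ.symm v)) = Complex.exp (2 * Real.pi * Complex.I / p) * Ψ v

/-- The family is closed under compositions with bi-Lipschitz maps between open sets. -/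
def Stable {n : ℕ} {X : Type} [TopologicalSpace X]
    (A : Set (OpenPartialHomeomorph X (EuclideanSpace ℝ (Fin n)))) : Prop :=
  ∀ φ ∈ A, ∀ e : OpenPartialHomeomorph (EuclideanSpace ℝ (Fin n)) (EuclideanSpace ℝ (Fin n)),
    (∃ L : ℝ, ∀ a ∈ e.source, ∀ b ∈ e.source,
      dist (e a) (e b) ≤ L * dist a b ∧ dist a b ≤ L * dist (e a) (e b)) → φ.trans e ∈ A

/-- The condition on a neighbourhood of the identity: for all `p`-adic elements with small powers
and all charts in which they are small there is a suitable invariant map. -/
def CircleCondition {n : ℕ} {G X : Type} [TopologicalSpace X] [Group G] [TopologicalSpace G]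
    [MulAction G X] (A : Set (OpenPartialHomeomorph X (EuclideanSpace ℝ (Fin n)))) (V : Set G) :
    Prop :=
  ∀ (p : ℕ) (g : G), p.Prime → Tendsto (fun j : ℕ => g ^ p ^ j) atTop (𝓝 1) → SmallPowers V g →
    ∀ φ ∈ A, SmallInChart φ g → ∃ F, InvariantMap φ g F ∧
      ball 0 1 ⊆ closure {y | y ∈ ball 0 1 ∧
        (g • φ.symm y = φ.symm y ∨ HasEigenfunction p φ g F y)}

/-- The criterion. -/
theorem result :
    ∀ (n : ℕ), 1 ≤ n → ∀ (X : Type) [TopologicalSpace X] [T2Space X]
      (A : Set (OpenPartialHomeomorph X (EuclideanSpace ℝ (Fin n)))), Stable A →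
      Dense {x | ∃ φ ∈ A, x ∈ φ.source} → IsPreconnected {x | ∃ φ ∈ A, x ∈ φ.source} →
      ∀ (G : Type) [Group G] [TopologicalSpace G] [IsTopologicalGroup G] [LocallyCompactSpace G]
        [MulAction G X] [ContinuousSMul G X] [FaithfulSMul G X],
      (∃ V ∈ 𝓝 (1 : G), CircleCondition A V) →
      ∃ (m : ℕ) (_ : ChartedSpace (EuclideanSpace ℝ (Fin m)) G),
        LieGroup (modelWithCornersSelf ℝ (EuclideanSpace ℝ (Fin m)))
          ((⊤ : ℕ∞) : WithTop ℕ∞) G := by
  rintro n hn X _ _ A hA hd hc G _ _ _ _ _ _ _ ⟨V, hV, h⟩
  refine Pool.Agent.N512.CC.lie_critK hn hA hd hc hV ?_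
  intro hT2 g hgV p hp hgp hcomp φ hφ hs
  obtain ⟨F, ⟨h1, h2, h3, h4⟩, h5⟩ := h p g hp hgp
    ⟨by rw [← Subgroup.topologicalClosure_coe]; exact hcomp,
      by rw [← Subgroup.topologicalClosure_coe]; exact hgV⟩ φ hφ
    ⟨hs.1, fun k hk => hs.2 k (by rw [Subgroup.topologicalClosure_coe]; exact hk)⟩
  exact Pool.Agent.N512.CC.triv_of_good (Pool.Agent.N512.CC.Circ.t_CIRC
    Pool.Agent.N512.CC.t_DEG Pool.Agent.N512.CC.Miss.t_MISS Pool.Agent.N512.CC.Cone.t_CONE
    Pool.Agent.N512.CC.Cone.t_GEN Pool.Agent.N512.CC.t_COMB) hn hp hgp hcomp hs
    ⟨F, h1, h2, h3, h4, h5⟩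

end Pool.Agent.Results.MP_afaf30_gt.CircleCriterion
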