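import Pool.Agent.N512.CC.E2
import Pool.Agent.N512.CC.Circ2
import Pool.Agent.N512.CC.Deg
import Pool.Agent.N512.CC.Miss
import Pool.Agent.N512.CC.Cone
import Pool.Agent.N512.CC.Comb

/-!
# Equivariant functions on the fibres of invariant maps: a Borsuk-Ulam theorem for p-adic actions

Let a topological group `G` act continuously on a Hausdorff space `X` and let `g` be an element with
`g^(p^j) → 1`, `p` a prime, whose powers have compact closure (a `p`-adic transformation). Let `φ` be a
topological chart of `X` with values in `ℝⁿ`, `n ≥ 1`, whose image contains the ball `B(0, 4)`, in which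
the closure of the powers of `g` has displacement at most `1/4` on this ball. Let `F` be any continuous
map of the ball into `ℝⁿ` with `|F(v) - v| < 1/4` which is invariant under `g`. Let `|y| < 1` be a point
such that the fibre of `F` over `y` contains no fixed point of `g`. Then every continuous complex
function `Ψ` on the part of the fibre lying in the closure of the set of the points with infinite
orbit under the powers of `g` which satisfies `Ψ(gv) = exp(2πi/p) Ψ(v)` has a zero. In particular this
part of the fibre is not empty, it is not totally disconnected, and it has no equivariant map to the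
circle on which `g` acts by the rotation of order `p`. No regularity is assumed.

For the free action of a `p`-adic group this says that the first Chern class of the flat line bundle
given by a character of order `p` is different from zero on the image of each fibre in the orbit
space; its square is always zero, so that one cannot replace the circle by the three-sphere in such an
argument. The non-existence of faithful `p`-adic actions on manifolds is the Hilbert-Smith conjecture.

Proof (files in `Pool/Agent/N512/CC/`). (1) If `Ψ` has no zeros on the whole fibre and is defined and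
equivariant near it, divide a neighbourhood of the fibre into `2p` sectors according to the argument
of `Ψ`, perturb `F` to a map `f` which misses the value `y` on the walls, and glue on the sectors
the maps `f ∘ g^a`; the degrees `D_i(a, b)` of the pieces satisfy `∑ D_i(σ_i, σ_{i+1}) = 1`,
`D_{i+2}(a, b) = D_i(a+1, b+1)` and `D_0(p^L, b) = D_0(0, b)`, which is impossible modulo `p`. (2) If `Ψ`
is given on the part of the fibre in the closure `Z` of the infinite orbits, extend it and average it
with the weights `exp(-2πik/p)`; perturb `F` off `Z` and off the fixed points by averages of small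
functions, so that the other strata meet the fibre in totally disconnected sets (Baire), where the
sizes of the orbits are divisible by `p`; then perturb the equivariant function off `Z` so that it
has no zeros on these sets (Baire), and apply (1).

The files `Deg`, `Miss`, `Cone`, `Comb` were written by the team members helper163, helper618,
helper711 and helper130.
-/

set_option autoImplicit false

namespace Pool.Agent.Results.MP_afaf30_gt.CircleFibres

open Set Metric Filter Topology

/-- No positive power of `g` fixes `x`, that is, the orbit of `x` under the powers of `g` is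
infinite. -/
def InfiniteOrbit {G X : Type} [Monoid G] [MulAction G X] (g : G) (x : X) : Prop :=
  ∀ m : ℕ, 0 < m → g ^ m • x ≠ x

/-- The closure of the powers of `g` is compact, and in the chart `φ` it has displacement at most
`1 / 4` on the closed ball of radius four. -/
def SmallInChart {n : ℕ} {G X : Type} [TopologicalSpace X] [Group G] [TopologicalSpace G]
    [MulAction G X] (φ : OpenPartialHomeomorph X (EuclideanSpace ℝ (Fin n))) (g : G) : Prop :=
  IsCompact (closure (Subgroup.zpowers g : Set G)) ∧ closedBall 0 4 ⊆ φ.target ∧
    ∀ h ∈ closure (Subgroup.zpowers g : Set G), ∀ v ∈ closedBall 0 4,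
      h • φ.symm v ∈ φ.source ∧ dist (φ (h • φ.symm v)) v ≤ 1 / 4

/-- `F` is continuous on the closed ball of radius four, moves its points by less than `1 / 4`, and
is invariant under `g`, read in the chart `φ`. -/
def InvariantMap {n : ℕ} {G X : Type} [TopologicalSpace X] [Group G] [MulAction G X]
    (φ : OpenPartialHomeomorph X (EuclideanSpace ℝ (Fin n))) (g : G)
    (F : EuclideanSpace ℝ (Fin n) → EuclideanSpace ℝ (Fin n)) : Prop :=
  ContinuousOn F (closedBall 0 4) ∧ (∀ v ∈ closedBall 0 4, dist (F v) v < 1 / 4) ∧
    ∀ v ∈ closedBall 0 3, F (φ (g • φ.symm v)) = F v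

/-- The part of the fibre of `F` over `y` in the closure of the set of the points of infinite
orbit. -/
def InfiniteFibre {n : ℕ} {G X : Type} [TopologicalSpace X] [Group G] [MulAction G X]
    (φ : OpenPartialHomeomorph X (EuclideanSpace ℝ (Fin n))) (g : G)
    (F : EuclideanSpace ℝ (Fin n) → EuclideanSpace ℝ (Fin n)) (y : EuclideanSpace ℝ (Fin n)) :
    Set (EuclideanSpace ℝ (Fin n)) :=
  {v | v ∈ closedBall 0 3 ∧ F v = y ∧ φ.symm v ∈ closure {x : X | InfiniteOrbit g x}}

/-- Every continuous complex function on the infinite part of a fibre without fixed points which is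
multiplied by `exp (2πi / p)` under `g` has a zero. -/
theorem result :
    ∀ (n : ℕ), 1 ≤ n → ∀ (X : Type) [TopologicalSpace X] [T2Space X]
      (G : Type) [Group G] [TopologicalSpace G] [IsTopologicalGroup G] [T2Space G]
      [MulAction G X] [ContinuousSMul G X] (p : ℕ), p.Prime → ∀ g : G,
      Tendsto (fun j : ℕ => g ^ p ^ j) atTop (𝓝 1) →
      ∀ φ : OpenPartialHomeomorph X (EuclideanSpace ℝ (Fin n)), SmallInChart φ g →
      ∀ F, InvariantMap φ g F → ∀ y ∈ ball (0 : EuclideanSpace ℝ (Fin n)) 1,
      (∀ v ∈ closedBall 0 3, F v = y → g • φ.symm v ≠ φ.symm v) →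
      ∀ Ψ : EuclideanSpace ℝ (Fin n) → ℂ, ContinuousOn Ψ (InfiniteFibre φ g F y) →
      (∀ v ∈ InfiniteFibre φ g F y,
        Ψ (φ (g • φ.symm v)) = Complex.exp (2 * Real.pi * Complex.I / p) * Ψ v) →
      ∃ v ∈ InfiniteFibre φ g F y, Ψ v = 0 := by
  intro n hn X _ _ G _ _ _ _ _ _ p hp g hg φ hs F hF y hy hfix Ψ hΨ1 hΨ2
  by_contra hcon
  push Not at hcon
  refine Pool.Agent.N512.CC.fibre_circle (Pool.Agent.N512.CC.Circ.t_CIRC
    Pool.Agent.N512.CC.t_DEG Pool.Agent.N512.CC.Miss.t_MISS Pool.Agent.N512.CC.Cone.t_CONE
    Pool.Agent.N512.CC.Cone.t_GEN Pool.Agent.N512.CC.t_COMB) hn hp hg ?_ ?_ hF.1 hF.2.1 hF.2.2 hy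
    hfix hΨ1 hcon hΨ2
  · rw [Subgroup.topologicalClosure_coe]
    exact hs.1
  · rw [Subgroup.topologicalClosure_coe]
    exact hs.2

end Pool.Agent.Results.MP_afaf30_gt.CircleFibres
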