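import Pool.Agent.N512.CC.D8
import Pool.Agent.N512.CC.Circ2
import Pool.Agent.N512.CC.Deg
import Pool.Agent.N512.CC.Miss
import Pool.Agent.N512.CC.Cone
import Pool.Agent.N512.CC.Comb
import Pool.Agent.N512.CC.Nv

/-!
# The Hilbert-Smith conjecture for pointwise Hölder conditions, exponent bigger than `n / (n + 2)`

Let `n ≥ 1` and let `X` be a metric space in which the points with a neighbourhood bi-Lipschitz
equivalent to an open subset of `ℝⁿ` form a dense connected set (for example an Alexandrov space
of dimension `n`). Let a locally compact group `G` act faithfully and continuously on `X`, and let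
`V` be a neighbourhood of `1`. Suppose that every `g` in `G` whose powers have compact closure
contained in `V` has a power `h = g^M`, `M ≠ 0`, which is Hölder at each single regular point `x` whose
orbit under the powers of `g` is infinite, outside a countable union of closed totally
disconnected sets: `d(hy, hx) ≤ C d(y, x)^α` for the points `y` near `x` of infinite orbit, with an
exponent `α > n / (n + 2)`. The powers, sets, exponents, constants and neighbourhoods depend on the
element and on the point in an arbitrary way. Then `G` is a Lie group. There is no condition at points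
of finite orbit. For uniformly Hölder actions on manifolds this is Maleshich's theorem (1997).

Proof (files in `Pool/Agent/N512/CC/`, `Pool/Agent/N512/HS/`, and the starting library). The new tool is
a circle criterion (`Circ`, `Circ2`; statement `S_CIRC` in `Stm`). Let `g^(p^j) → 1`, let `F` be an
invariant map of a ball which is close to the identity, and let `Ψ` be a continuous complex function
with `Ψ(gx) = exp(2πi/p) Ψ(x)`. Then `Ψ` has a zero on every fibre of `F`. Otherwise divide a
neighbourhood of the fibre into `2p` sectors according to the argument of `Ψ`, perturb `F` so that it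
misses the value on the walls, and glue on the sectors maps `f ∘ g^a`; the degrees `D_i(a, b)` of the
pieces satisfy `∑ D_i(σ_i, σ_{i+1}) = 1`, `D_{i+2}(a, b) = D_i(a+1, b+1)` and
`D_0(p^L, b) = D_0(0, b)`, which is impossible modulo `p` (`Comb`). For the averaged map `F` of a group
which is uniformly `α`-Hölder on a closed set `P`, and twisted averages `Ψ_i` of Lipschitz functions,
generic combinations `∑ t_i Ψ_i` have no zeros on `P` over almost all values `y`, if
`α (n + 2) > n` (`Nv`). Off the closure `Z` of the set of the points of infinite orbit the maps are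
perturbed by Baire's theorem (`D2`, `D3`, `D4`). Baire's theorem on the condensation points of `Z` and
on a coset of a closed subgroup reduces the pointwise to the uniform condition (`D6`, `D7`, `D8`).

The files `Deg`, `Miss`, `Cone`, `Comb`, `Nv` were written by the team members helper163, helper618,
helper711, helper130 and helper247.
-/

set_option autoImplicit false

namespace Pool.Agent.Results.MP_afaf30_gt.HolderOrbits

open Set Metric Filter Topology

/-- The points in the domain of a bi-Lipschitz chart with values in Euclidean `n`-space. -/
def Reg (n : ℕ) (X : Type) [MetricSpace X] : Set X :=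
  {x | ∃ φ : OpenPartialHomeomorph X (EuclideanSpace ℝ (Fin n)),
    (∃ L : ℝ, ∀ a ∈ φ.source, ∀ b ∈ φ.source,
      dist (φ a) (φ b) ≤ L * dist a b ∧ dist a b ≤ L * dist (φ a) (φ b)) ∧ x ∈ φ.source}

/-- No positive power of `g` fixes `x`, that is, the orbit of `x` under the powers of `g` is
infinite. -/
def InfiniteOrbit {G X : Type} [Monoid G] [MulAction G X] (g : G) (x : X) : Prop :=
  ∀ m : ℕ, 0 < m → g ^ m • x ≠ x

/-- The element `g` is Hölder at the point `x` with some exponent `α > n / (n + 2)`, tested
against the points of infinite orbit: `d(gy, gx) ≤ C d(y, x)^α` for the points `y` of infinite orbit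
with `d(y, x) < δ`. -/
def HolderAt (n : ℕ) {G X : Type} [MetricSpace X] [Monoid G] [MulAction G X] (g : G) (x : X) :
    Prop :=
  ∃ α C δ : ℝ, (n : ℝ) / (n + 2) < α ∧ 0 < δ ∧
    ∀ y, InfiniteOrbit g y → dist y x < δ → dist (g • y) (g • x) ≤ C * dist y x ^ α

/-- There are countably many closed totally disconnected sets such that `g` is Hölder at all
regular points of infinite orbit outside these sets. -/
def HolderAlongOrbits (n : ℕ) (X : Type) [MetricSpace X] {G : Type} [Group G] [MulAction G X]
    (g : G) : Prop :=
  ∃ T : ℕ → Set X, (∀ i, IsClosed (T i)) ∧ (∀ i, IsTotallyDisconnected (T i)) ∧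
    ∀ x ∈ Reg n X, InfiniteOrbit g x → (∀ i, x ∉ T i) → HolderAt n g x

/-- The powers of `g` have compact closure contained in `V`. -/
def SmallPowers {G : Type} [Group G] [TopologicalSpace G] (V : Set G) (g : G) : Prop :=
  IsCompact (closure (Subgroup.zpowers g : Set G)) ∧ closure (Subgroup.zpowers g : Set G) ⊆ V

/-- The Hilbert-Smith conjecture for actions all of whose small elements have a nonzero power
which is pointwise Hölder with exponent bigger than `n / (n + 2)` along the infinite orbits, off a
countable union of closed totally disconnected sets. -/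
theorem result :
    ∀ (n : ℕ), 1 ≤ n → ∀ (X : Type) [MetricSpace X],
      Dense (Reg n X) → IsPreconnected (Reg n X) →
      ∀ (G : Type) [Group G] [TopologicalSpace G] [IsTopologicalGroup G] [LocallyCompactSpace G]
        [MulAction G X] [ContinuousSMul G X] [FaithfulSMul G X], ∀ V ∈ 𝓝 (1 : G),
        (∀ g : G, SmallPowers V g → ∃ M : ℤ, M ≠ 0 ∧ HolderAlongOrbits n X (g ^ M)) →
        ∃ (m : ℕ) (_ : ChartedSpace (EuclideanSpace ℝ (Fin m)) G),
          LieGroup (modelWithCornersSelf ℝ (EuclideanSpace ℝ (Fin m)))
            ((⊤ : ℕ∞) : WithTop ℕ∞) G := by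
  intro n hn X _ hd hc G _ _ _ _ _ _ _ V hV hreg
  exact Pool.Agent.N512.CC.lie_hol (Pool.Agent.N512.CC.Circ.t_CIRC Pool.Agent.N512.CC.t_DEG
    Pool.Agent.N512.CC.Miss.t_MISS Pool.Agent.N512.CC.Cone.t_CONE Pool.Agent.N512.CC.Cone.t_GEN
    Pool.Agent.N512.CC.t_COMB) Pool.Agent.N512.CC.t_NV hn hd hc hV hreg

end Pool.Agent.Results.MP_afaf30_gt.HolderOrbits
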