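import Pool.Agent.N512.HS.A8

/-!
# The Hilbert-Smith conjecture for actions which are regular along the infinite orbits

Let `n ≥ 2` and let `X` be a metric space in which the points with a neighbourhood bi-Lipschitz
equivalent to an open subset of `ℝⁿ` form a dense connected set (for example an Alexandrov space
of dimension `n`). Let a locally compact group `G` act faithfully and continuously on `X`, and let
`V` be a neighbourhood of `1`. Suppose that every `g` in `G` whose powers have compact closure
contained in `V` has a power `h = g^M`, `M ≠ 0`, which satisfies a regularity condition at the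
regular points whose orbit under the powers of `g` is infinite, outside a countable union of closed
totally disconnected sets. The condition at `x` is that `h` is near `x` of class `W^{1,q}` for some
`q > n - 1`, or has small images of balls near `x`, or that `h` is Hölder at the single point `x`
with some exponent bigger than `(n - 1) / n`, tested only against points of infinite orbit. The
powers, sets, exponents, constants and neighbourhoods depend on the element (and on the point) in an
arbitrary way. Then `G` is a Lie group. There is no condition at points of finite orbit.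

Proof (files in `Pool/Agent/N512/HS/` and `Pool/Agent/R775/`). It is enough to treat a compact totally
disconnected group and an element `g` with `g^(p^j) → 1`. Let `Z` be the closure of the set of the
points of infinite orbit. Let `F₀` be the average of the powers of `g` in a small chart. Perturb `F₀`
by averages of small functions which vanish on `Z`: Baire's theorem in the space of these functions
gives an invariant map `F` close to the identity such that for a dense set of values `y` the fibre over
`y` meets each of countably many pieces of the strata of finite orbits in a totally disconnected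
set. Hence if the fibres of `F₀` on `Z` contain no nontrivial continua, or only pointwise fixed
ones, invariant continua of the fibres of `F` are points and the degree argument of the starting
library applies. If `Z` met the regular set, consider the condensation points `P` of `Z` in a chart;
all nontrivial continua of `Z` lie in `P`. Baire's theorem on `P` shows that every element of the coset
`g₁ ⋅ closure ⟨g₁^p⟩`, `g₁ = g^(p^J)`, has a power which has uniformly small energies on a relatively
open subset of `P` (pieces on which a power of `g` is trivial, or which are totally disconnected, lead to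
a contradiction). Baire's theorem on this coset gives uniform bounds for a coset of an open
subgroup, so the averages of this subgroup, in the chart given by a representative of the coset, have
almost all fibres on `P` totally disconnected, and an open subgroup acts trivially near a point of
`Z`, a contradiction. So `Z` does not meet the regular set, and all elements satisfy the
criterion.
-/

set_option autoImplicit false

namespace Pool.Agent.Results.MP_afaf30_gt.InfiniteOrbits

open MeasureTheory Set Metric Filter Topology
open scoped ENNReal

/-- The points in the domain of a bi-Lipschitz chart with values in Euclidean `n`-space. -/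
def Reg (n : ℕ) (X : Type) [MetricSpace X] : Set X :=
  {x | ∃ φ : OpenPartialHomeomorph X (EuclideanSpace ℝ (Fin n)),
    (∃ L : ℝ, ∀ a ∈ φ.source, ∀ b ∈ φ.source,
      dist (φ a) (φ b) ≤ L * dist a b ∧ dist a b ≤ L * dist (φ a) (φ b)) ∧ x ∈ φ.source}

/-- Near `x` the map `f` is of class `W^{1,q}` for some `q > n - 1`, in the form of Hajlasz: in a
neighbourhood `d(fa, fb) ≤ d(a, b) (h(a) + h(b))`, and `h^q` has finite integral for the
`n`-dimensional Hausdorff measure. -/
def SobolevNear (n : ℕ) {X : Type} [MetricSpace X] [MeasurableSpace X] [BorelSpace X]
    (f : X → X) (x : X) : Prop :=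
  ∃ W ∈ 𝓝 x, ∃ q : ℝ, (n : ℝ) - 1 < q ∧ ∃ h : X → ℝ≥0∞, Measurable h ∧
    (∀ a ∈ W, ∀ b ∈ W, edist (f a) (f b) ≤ edist a b * (h a + h b)) ∧
    ∫⁻ a in W, h a ^ q ∂(Measure.hausdorffMeasure (n : ℝ)) < ∞

/-- For a compact neighbourhood `W` of `x` the sum of `diam (f (B(a, c r) ∩ W))^n` over
`r`-separated points `a` of `W` is at most `N r^{-1 + 1/N}`, for some `N` depending on `c`. -/
def SmallImagesNear (n : ℕ) {X : Type} [MetricSpace X] (f : X → X) (x : X) : Prop :=
  ∃ W ∈ 𝓝 x, IsCompact W ∧ ∀ c : ℕ, ∃ N : ℕ, ∀ r : ℝ, 0 < r → r ≤ 1 → ∀ A : Finset X,
    (∀ a ∈ A, a ∈ W) → (∀ a ∈ A, ∀ b ∈ A, a ≠ b → r ≤ dist a b) →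
    ∑ a ∈ A, Metric.diam (f '' (closedBall a (c * r) ∩ W)) ^ n ≤ N * r ^ (1 / (N : ℝ) - 1)

/-- No positive power of `g` fixes `x`, that is, the orbit of `x` under the powers of `g` is
infinite. -/
def InfiniteOrbit {G X : Type} [Monoid G] [MulAction G X] (g : G) (x : X) : Prop :=
  ∀ m : ℕ, 0 < m → g ^ m • x ≠ x

/-- The element `g` is Hölder at the point `x` with some exponent `α > (n - 1) / n`, tested
against the points of infinite orbit: `d(gy, gx) ≤ C d(y, x)^α` for the points `y` of infinite orbit
with `d(y, x) < δ`. -/
def HolderAt (n : ℕ) {G X : Type} [MetricSpace X] [Monoid G] [MulAction G X] (g : G) (x : X) :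
    Prop :=
  ∃ α C δ : ℝ, ((n : ℝ) - 1) / n < α ∧ 0 < δ ∧
    ∀ y, InfiniteOrbit g y → dist y x < δ → dist (g • y) (g • x) ≤ C * dist y x ^ α

/-- There are countably many closed totally disconnected sets such that the regularity condition
holds at all regular points of infinite orbit outside these sets. -/
def Regular (n : ℕ) (X : Type) [MetricSpace X] [MeasurableSpace X] [BorelSpace X] {G : Type}
    [Group G] [MulAction G X] (g : G) : Prop :=
  ∃ T : ℕ → Set X, (∀ i, IsClosed (T i)) ∧ (∀ i, IsTotallyDisconnected (T i)) ∧
    ∀ x ∈ Reg n X, InfiniteOrbit g x → (∀ i, x ∉ T i) →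
      (SobolevNear n (fun x : X => g • x) x ∨ SmallImagesNear n (fun x : X => g • x) x) ∨
        HolderAt n g x

/-- The powers of `g` have compact closure contained in `V`. -/
def SmallPowers {G : Type} [Group G] [TopologicalSpace G] (V : Set G) (g : G) : Prop :=
  IsCompact (closure (Subgroup.zpowers g : Set G)) ∧ closure (Subgroup.zpowers g : Set G) ⊆ V

/-- The Hilbert-Smith conjecture for actions all of whose small elements have a nonzero power
which is regular along the infinite orbits, off a countable union of closed totally disconnected
sets. -/
theorem result :
    ∀ (n : ℕ), 2 ≤ n → ∀ (X : Type) [MetricSpace X] [MeasurableSpace X] [BorelSpace X],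
      Dense (Reg n X) → IsPreconnected (Reg n X) →
      ∀ (G : Type) [Group G] [TopologicalSpace G] [IsTopologicalGroup G] [LocallyCompactSpace G]
        [MulAction G X] [ContinuousSMul G X] [FaithfulSMul G X], ∀ V ∈ 𝓝 (1 : G),
        (∀ g : G, SmallPowers V g → ∃ M : ℤ, M ≠ 0 ∧ Regular n X (g ^ M)) →
        ∃ (m : ℕ) (_ : ChartedSpace (EuclideanSpace ℝ (Fin m)) G),
          LieGroup (modelWithCornersSelf ℝ (EuclideanSpace ℝ (Fin m)))
            ((⊤ : ℕ∞) : WithTop ℕ∞) G := by
  intro n hn X _ _ _ hd hc G _ _ _ _ _ _ _ V hV hreg
  exact Pool.Agent.N512.HS.lie_inf hn hd hc hV hreg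

end Pool.Agent.Results.MP_afaf30_gt.InfiniteOrbits
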